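import Pool.Agent.D0H44.DM.Stm

/-!
# Project DM, module L2: the mean square of the discrepancy over a rectangle
-/

set_option autoImplicit false

open MeasureTheory Set Filter

namespace Pool.Agent.D0H19.DM

open Pool.Agent.D0H44.DM

/-- one translate of the period -/
theorem one_period {g : ℝ → ENNReal} {α : ℝ} (hp : ∀ β, g (β + α) = g β) (k : ℤ) :
    ∫⁻ β in Ioc (k * α) ((k + 1) * α), g β = ∫⁻ β in Ioc 0 α, g β := by
  have hper : Function.Periodic g α := hp
  have hk : ∀ β, g (β + k * α) = g β := fun β => by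
    have := hper.int_mul k β
    simpa using this
  rw [← lintegral_indicator measurableSet_Ioc, ← lintegral_indicator measurableSet_Ioc,
    ← lintegral_add_right_eq_self _ ((k : ℝ) * α)]
  refine lintegral_congr fun β => ?_
  by_cases h : β ∈ Ioc 0 α
  · rw [indicator_of_mem h, indicator_of_mem, hk]
    constructor
    · linarith [h.1]
    · linarith [h.2]
  · rw [indicator_of_notMem h, indicator_of_notMem]
    intro h'
    apply h
    constructor
    · linarith [h'.1]
    · linarith [h'.2]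

/-- `[-B, B]` is covered by few periods -/
theorem cover {g : ℝ → ENNReal} {α a B : ℝ} (hp : ∀ β, g (β + α) = g β) (ha : 0 < a) (haα : a ≤ α)
    (hB : 0 < B) :
    ∫⁻ β in Icc (-B) B, g β ≤ ((2 * (⌈B / a⌉₊ + 1) + 1 : ℕ) : ENNReal) * ∫⁻ β in Ioc 0 α, g β := by
  set K : ℕ := ⌈B / a⌉₊ + 1 with hK
  have hα : 0 < α := ha.trans_le haα
  have hKB : B < K * α := by
    have h1 : B / a ≤ (⌈B / a⌉₊ : ℝ) := Nat.le_ceil _
    rw [div_le_iff₀ ha] at h1
    have h2 : (K : ℝ) = (⌈B / a⌉₊ : ℝ) + 1 := by rw [hK]; push_cast; ring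
    have h3 : (0 : ℝ) ≤ (⌈B / a⌉₊ : ℝ) := Nat.cast_nonneg _
    rw [h2]
    nlinarith
  have hsub : Icc (-B) B ⊆ ⋃ k ∈ Finset.Icc (-(K : ℤ)) K, Ioc ((k : ℝ) * α) (((k : ℝ) + 1) * α) := by
    intro β hβ
    rw [mem_iUnion₂]
    refine ⟨⌈β / α⌉ - 1, ?_, ?_, ?_⟩
    · rw [Finset.mem_Icc]
      have h1 : β / α ≤ (⌈β / α⌉ : ℝ) := Int.le_ceil _
      have h2 : (⌈β / α⌉ : ℝ) < β / α + 1 := Int.ceil_lt_add_one _
      have h3 : -(K : ℝ) < β / α := by
        rw [lt_div_iff₀ hα]
        linarith [hβ.1]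
      have h4 : β / α < K := by
        rw [div_lt_iff₀ hα]
        linarith [hβ.2]
      constructor
      · have h5 : (-(K : ℤ) : ℤ) < ⌈β / α⌉ := by
          have : ((-(K : ℤ) : ℤ) : ℝ) < (⌈β / α⌉ : ℝ) := by push_cast; linarith
          exact_mod_cast this
        omega
      · have h5 : (⌈β / α⌉ : ℤ) < K + 1 := by
          have : ((⌈β / α⌉ : ℤ) : ℝ) < ((K + 1 : ℤ) : ℝ) := by push_cast; linarith
          exact_mod_cast this
        omega
    · push_cast
      have h2 : (⌈β / α⌉ : ℝ) < β / α + 1 := Int.ceil_lt_add_one _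
      have h3 : β / α * α = β := div_mul_cancel₀ _ hα.ne'
      nlinarith
    · push_cast
      have h1 : β / α ≤ (⌈β / α⌉ : ℝ) := Int.le_ceil _
      have h3 : β / α * α = β := div_mul_cancel₀ _ hα.ne'
      nlinarith
  calc ∫⁻ β in Icc (-B) B, g β
      ≤ ∫⁻ β in ⋃ k ∈ Finset.Icc (-(K : ℤ)) K, Ioc ((k : ℝ) * α) (((k : ℝ) + 1) * α), g β :=
        lintegral_mono_set hsub
    _ ≤ ∑ k ∈ Finset.Icc (-(K : ℤ)) K, ∫⁻ β in Ioc ((k : ℝ) * α) (((k : ℝ) + 1) * α), g β := by
        induction Finset.Icc (-(K : ℤ)) K using Finset.induction_on with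
        | empty => simp
        | insert k s hk ih =>
          rw [Finset.set_biUnion_insert, Finset.sum_insert hk]
          exact (lintegral_union_le g _ _).trans (add_le_add le_rfl ih)
    _ = ∑ k ∈ Finset.Icc (-(K : ℤ)) K, ∫⁻ β in Ioc 0 α, g β :=
        Finset.sum_congr rfl fun k _ => one_period hp k
    _ = _ := by
        rw [Finset.sum_const, Int.card_Icc, nsmul_eq_mul]
        congr 2
        omega

theorem t_L2 (hAVG : S_AVG) (hGGP : S_GGP) (hUNF : S_UNF) (hMS : S_MS) : S_L2 := by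
  intro a B ha hB
  obtain ⟨C, hC, hav⟩ := hAVG a ha
  set N : ℕ := 2 * (⌈B / a⌉₊ + 1) + 1 with hN
  refine ⟨N * C, by positivity, fun f hf hf0 x y X hx hxy hyX hX => ?_⟩
  obtain ⟨g1, g2, g3, g4, g5, g6⟩ := hGGP f hf hf0 x y hxy
  obtain ⟨i1, i2⟩ := hav (GG f x y) X (∫ t in x..y, f t ^ 2) hX g1 g2 g3 g4
    (fun w hw => g5 w (by linarith))
  have hms := hMS.1 f x y a B hf ha
  have hvol : (volume : Measure (ℝ × ℝ)).restrict (Icc a (2 * a) ×ˢ Icc (-B) B) =
      (volume.restrict (Icc a (2 * a))).prod (volume.restrict (Icc (-B) B)) := by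
    rw [Measure.prod_restrict]
    rfl
  have hms2 : AEMeasurable (fun p : ℝ × ℝ => ENNReal.ofReal (dd f x y p.1 p.2 ^ 2))
      ((volume.restrict (Icc a (2 * a))).prod (volume.restrict (Icc (-B) B))) := by
    rw [← hvol]
    exact (hms.pow_const 2).ennreal_ofReal
  rw [hvol, lintegral_prod _ hms2]
  set Φ : ℝ → ℝ := fun α => (∑' h : ℤ, GG f x y (α * h)) - (∫ w, GG f x y w) / α with hΦ
  have h1 : ∀ α ∈ Icc a (2 * a), ∫⁻ β in Icc (-B) B, ENNReal.ofReal (dd f x y α β ^ 2) ≤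
      (N : ENNReal) * ENNReal.ofReal (Φ α) := by
    intro α hα
    have hα0 : 0 < α := ha.trans_le hα.1
    refine (cover (fun β => by rw [hMS.2.1]) ha hα.1 hB).trans (le_of_eq ?_)
    congr 1
    obtain ⟨u1, u2⟩ := hUNF f hf hf0 x y α hxy hα0
    rw [hΦ]
    simp only
    rw [← u2, intervalIntegral.integral_of_le hα0.le, ofReal_integral_eq_lintegral_ofReal]
    · exact (intervalIntegrable_iff_integrableOn_Ioc_of_le hα0.le).1 u1
    · exact Eventually.of_forall fun β => sq_nonneg _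
  have h2 : ∀ α ∈ Ioc a (2 * a), 0 ≤ Φ α := by
    intro α hα
    have hα0 : 0 < α := ha.trans hα.1
    obtain ⟨u1, u2⟩ := hUNF f hf hf0 x y α hxy hα0
    rw [hΦ]
    simp only
    rw [← u2]
    exact intervalIntegral.integral_nonneg hα0.le fun β _ => sq_nonneg _
  calc ∫⁻ α in Icc a (2 * a), ∫⁻ β in Icc (-B) B, ENNReal.ofReal (dd f x y α β ^ 2)
      ≤ ∫⁻ α in Icc a (2 * a), (N : ENNReal) * ENNReal.ofReal (Φ α) :=
        setLIntegral_mono' measurableSet_Icc h1
    _ = (N : ENNReal) * ∫⁻ α in Icc a (2 * a), ENNReal.ofReal (Φ α) :=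
        lintegral_const_mul' _ _ (ENNReal.natCast_ne_top _)
    _ = (N : ENNReal) * ENNReal.ofReal (∫ α in a..(2 * a), Φ α) := by
        congr 1
        rw [setLIntegral_congr (Ioc_ae_eq_Icc (μ := volume)).symm,
          intervalIntegral.integral_of_le (by linarith), ofReal_integral_eq_lintegral_ofReal]
        · exact (intervalIntegrable_iff_integrableOn_Ioc_of_le (by linarith)).1 i1
        · exact (ae_restrict_iff' measurableSet_Ioc).2 (Eventually.of_forall h2)
    _ ≤ (N : ENNReal) * ENNReal.ofReal (C * (1 + Real.log X) * ∫ t in x..y, f t ^ 2) := by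
        gcongr
    _ = _ := by
        rw [← ENNReal.ofReal_natCast, ← ENNReal.ofReal_mul (Nat.cast_nonneg _)]
        congr 1
        ring

end Pool.Agent.D0H19.DM
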